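import Mathlib

/-!
# MP_34afd1_lc, Q1: answer no

The structure of the positive integers with addition, the function `x * 2 ^ y`, the order and the
constant `1` is not automatic.
-/

set_option autoImplicit false

namespace Pool.Agent.Results.MP_34afd1_lc.NotAutomatic

open FirstOrder

/-- The convolution of `k` words over `A`: a word over `(A ∪ {□}) ^ k`, the padding symbol `□`
being `none`, whose length is the maximum of the lengths. -/
def conv {A : Type} {k : ℕ} (w : Fin k → List A) : List (Fin k → Option A) :=
  List.ofFn (n := Finset.univ.sup fun j => (w j).length) fun i j => (w j)[(i : ℕ)]?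

/-- A relation on words is automatic if the convolutions of its tuples form a regular language. -/
def AutomaticRel {A : Type} {k : ℕ} (R : Set (Fin k → List A)) : Prop :=
  Language.IsRegular ({c | ∃ w ∈ R, c = conv w} : Language (Fin k → Option A))

/-- The structure `M` is automatic: it is isomorphic to a structure whose domain `D` is a regular
language over a finite alphabet and in which all relations and all graphs of functions are
automatic. (The bijection `e` from `D` to `M` carries the structure of `M` over to `D`.) -/
def Automatic (L : FirstOrder.Language.{0, 0}) (M : Type) [L.Structure M] : Prop :=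
  ∃ (A : Type) (_ : Fintype A) (D : Language A) (e : {w : List A // w ∈ D} ≃ M),
    D.IsRegular ∧
    (∀ (n : ℕ) (R : L.Relations n), AutomaticRel
      {w : Fin n → List A | ∃ x : Fin n → M, Language.Structure.RelMap R x ∧
        ∀ i, w i = (e.symm (x i) : List A)}) ∧
    (∀ (n : ℕ) (f : L.Functions n), AutomaticRel
      {w : Fin (n + 1) → List A | ∃ x : Fin n → M, (∀ i, w (Fin.castSucc i) =
        (e.symm (x i) : List A)) ∧
          w (Fin.last n) = (e.symm (Language.Structure.funMap f x) : List A)})

/-- Function symbols: the constant `1`, addition and `x * 2 ^ y`. -/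
inductive NFun : ℕ → Type
  | one : NFun 0
  | add : NFun 2
  | mulPow : NFun 2

/-- Relation symbols: the order. -/
inductive NRel : ℕ → Type
  | le : NRel 2

/-- The language of the structure. -/
def LN : FirstOrder.Language.{0, 0} := ⟨NFun, NRel⟩

/-- The positive integers with addition, `x * 2 ^ y`, the order and the constant `1`. -/
instance : LN.Structure ℕ+ where
  funMap := fun {n} f v => match n, f, v with
    | _, NFun.one, _ => 1
    | _, NFun.add, v => v 0 + v 1
    | _, NFun.mulPow, v => v 0 * 2 ^ (v 1 : ℕ)
  RelMap := fun {n} r v => match n, r, v with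
    | _, NRel.le, v => v 0 ≤ v 1

/-! ## Convolutions -/

section convolution

variable {A : Type} {k : ℕ}

/-- The component `j` of a word over `(A ∪ {□}) ^ k`. -/
def proj (j : Fin k) (c : List (Fin k → Option A)) : List A := c.filterMap fun a => a j

theorem filterMap_getElem (l : List A) (m : ℕ) (h : l.length ≤ m) :
    (List.ofFn (n := m) fun i => l[(i : ℕ)]?).filterMap id = l := by
  induction m generalizing l with
  | zero =>
    have : l = [] := List.length_eq_zero_iff.1 (by omega)
    simp [this]
  | succ m ih =>
    cases l with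
    | nil =>
      have := ih [] (by simp)
      simp only [List.ofFn_succ]
      simpa using this
    | cons a l =>
      simp only [List.length_cons] at h
      have := ih l (by omega)
      simp only [List.ofFn_succ]
      simpa using this

theorem proj_conv (w : Fin k → List A) (j : Fin k) : proj j (conv w) = w j := by
  unfold proj conv
  have h1 : (w j).length ≤ Finset.univ.sup fun j => (w j).length :=
    Finset.le_sup (f := fun j => (w j).length) (Finset.mem_univ j)
  have h2 := filterMap_getElem (w j) _ h1
  conv_rhs => rw [← h2]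
  have h3 : (List.ofFn (n := Finset.univ.sup fun j => (w j).length)
      fun i => (w j)[(i : ℕ)]?) =
      (List.ofFn (n := Finset.univ.sup fun j => (w j).length)
        fun i j => (w j)[(i : ℕ)]?).map fun a => a j := by
    rw [List.map_ofFn]
    rfl
  rw [h3, List.filterMap_map]
  rfl

theorem length_conv (w : Fin k → List A) :
    (conv w).length = Finset.univ.sup fun j => (w j).length := by
  simp [conv]

/-- The letters of the convolution after the end of the word `w j` have component `□`. -/
theorem drop_conv (w : Fin k → List A) (j : Fin k) (m : ℕ) (h : (w j).length ≤ m) :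
    ∀ a ∈ (conv w).drop m, a j = none := by
  intro a ha
  obtain ⟨i, hi, rfl⟩ := List.getElem_of_mem ha
  rw [List.getElem_drop]
  unfold conv
  rw [List.getElem_ofFn]
  simp only
  apply List.getElem?_eq_none
  omega

theorem proj_append (j : Fin k) (c d : List (Fin k → Option A)) :
    proj j (c ++ d) = proj j c ++ proj j d := by
  simp [proj]

theorem proj_eq_nil (j : Fin k) (c : List (Fin k → Option A)) (h : ∀ a ∈ c, a j = none) :
    proj j c = [] := by
  unfold proj
  rw [List.filterMap_eq_nil_iff]
  exact h

/-- The value of an automatic function is not much longer than the arguments. -/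
theorem length_le (R : Set (Fin 3 → List A)) (hR : AutomaticRel R)
    (hfun : ∀ w ∈ R, ∀ w' ∈ R, w 0 = w' 0 → w 1 = w' 1 → w 2 = w' 2) :
    ∃ N : ℕ, ∀ w ∈ R, (w 2).length ≤ max (w 0).length (w 1).length + N := by
  obtain ⟨σ, hσ, M, hM⟩ := hR
  refine ⟨Fintype.card σ, fun w hw => ?_⟩
  by_contra hlt
  push Not at hlt
  set m := max (w 0).length (w 1).length with hm
  have hlen : (conv w).length = (w 2).length := by
    rw [length_conv]
    apply le_antisymm
    · apply Finset.sup_le
      intro j _
      fin_cases j
      · show (w 0).length ≤ (w 2).length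
        have := le_max_left (w 0).length (w 1).length
        omega
      · show (w 1).length ≤ (w 2).length
        have := le_max_right (w 0).length (w 1).length
        omega
      · exact le_rfl
    · exact Finset.le_sup (f := fun j => (w j).length) (Finset.mem_univ 2)
  have hacc : conv w ∈ M.accepts := by
    rw [hM]
    exact ⟨w, hw, rfl⟩
  -- split the word
  have hsplit : conv w = (conv w).take m ++ (conv w).drop m := (List.take_append_drop m _).symm
  obtain ⟨q, a, b, c, h1, -, hb, hqa, hqb, hqc⟩ := M.evalFrom_split
    (x := (conv w).drop m) (s := M.evalFrom M.start ((conv w).take m))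
    (t := M.evalFrom (M.evalFrom M.start ((conv w).take m)) ((conv w).drop m))
    (by rw [List.length_drop, hlen]; omega) rfl
  -- the pumped word
  have hacc2 : (conv w).take m ++ (a ++ c) ∈ M.accepts := by
    rw [DFA.mem_accepts] at hacc ⊢
    unfold DFA.eval at hacc ⊢
    rw [hsplit, DFA.evalFrom_of_append] at hacc
    rw [DFA.evalFrom_of_append, DFA.evalFrom_of_append, hqa, hqc]
    exact hacc
  rw [hM] at hacc2
  obtain ⟨w', hw', hcw'⟩ := hacc2
  have hpr : ∀ j : Fin 3, (w j).length ≤ m → w j = w' j := by
    intro j hj
    rw [← proj_conv w j, ← proj_conv w' j, ← hcw']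
    have hd := drop_conv w j m hj
    conv_lhs => rw [hsplit]
    rw [proj_append, proj_append, h1, proj_append, proj_append, proj_append]
    have hb' : proj j b = [] := by
      apply proj_eq_nil
      intro x hx
      apply hd
      rw [h1]
      simp [hx]
    rw [hb']
    simp
  have e0 := hpr 0 (le_max_left _ _)
  have e1 := hpr 1 (le_max_right _ _)
  have e2 := hfun w hw w' hw' e0 e1
  have hww : w = w' := by
    funext j
    fin_cases j
    · exact e0
    · exact e1
    · exact e2
  have h3 := congrArg List.length hcw'
  rw [← hww, List.length_append, List.length_append] at h3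
  have h5 : (conv w).length = ((conv w).take m).length + (a.length + b.length + c.length) := by
    conv_lhs => rw [hsplit]
    rw [List.length_append, h1, List.length_append, List.length_append]
  have h4 : 0 < b.length := List.length_pos_iff.2 hb
  omega

end convolution

/-! ## Growth -/

theorem exists_big (α β : ℕ) : ∃ n : ℕ, α * n + β + 2 ≤ 2 ^ n := by
  have key : ∀ n : ℕ, 5 ≤ n → n * n + n + 2 ≤ 2 ^ n := by
    intro n hn
    induction n, hn using Nat.le_induction with
    | base => norm_num
    | succ n hn ih =>
      rw [pow_succ]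
      nlinarith
  refine ⟨α + β + 5, ?_⟩
  have := key (α + β + 5) (by omega)
  nlinarith

theorem growth (l : ℕ → ℕ) (N c : ℕ) (h1 : l 1 ≤ c)
    (hadd : ∀ x y, 0 < x → 0 < y → l (x + y) ≤ max (l x) (l y) + N)
    (hpow : ∀ y, 0 < y → l (2 ^ y) ≤ max (l 1) (l y) + N) (n : ℕ) :
    ∀ r, 0 < r → r < 2 ^ 2 ^ n → l (2 * r) ≤ c + (2 * n + 1) * N := by
  have hA : ∀ n x, 0 < x → x ≤ 2 ^ n → l x ≤ c + n * N := by
    intro n
    induction n with
    | zero =>
      intro x hx hx1
      have : x = 1 := by
        have : 2 ^ 0 = 1 := rfl
        omega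
      rw [this]
      omega
    | succ n ih =>
      intro x hx hx1
      by_cases h : x ≤ 2 ^ n
      · have := ih x hx h
        rw [add_mul]
        omega
      · have h2 : x = 2 ^ n + (x - 2 ^ n) := by omega
        have h3 := ih (2 ^ n) (by positivity) le_rfl
        have h4 := ih (x - 2 ^ n) (by omega) (by rw [pow_succ] at hx1; omega)
        have h5 := hadd (2 ^ n) (x - 2 ^ n) (by positivity) (by omega)
        rw [← h2] at h5
        rw [add_mul, one_mul]
        have := max_le h3 h4
        omega
  have hB : ∀ m a r, 0 < a → a + 2 ^ m ≤ 2 ^ n + 1 → 0 < r → r < 2 ^ 2 ^ m →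
      l (2 ^ a * r) ≤ c + (n + 1) * N + m * N := by
    intro m
    induction m with
    | zero =>
      intro a r ha ham hr hr2
      have h2 : r = 1 := by
        have : 2 ^ 2 ^ 0 = 2 := rfl
        omega
      rw [h2, mul_one]
      have h3 := hpow a ha
      have h4 := hA n a ha (by
        have : 2 ^ 0 = 1 := rfl
        omega)
      have h5 : l 1 ≤ c + n * N := h1.trans (Nat.le_add_right _ _)
      have h6 := max_le h5 h4
      rw [add_mul, one_mul]
      omega
    | succ m ih =>
      intro a r ha ham hr hr2
      have hpw : 2 ^ (m + 1) = 2 ^ m + 2 ^ m := by rw [pow_succ]; ring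
      have hpw2 : (2 : ℕ) ^ 2 ^ (m + 1) = 2 ^ 2 ^ m * 2 ^ 2 ^ m := by rw [hpw, pow_add]
      set r0 := r % 2 ^ 2 ^ m with hr0
      set r1 := r / 2 ^ 2 ^ m with hr1
      have hdm : r = 2 ^ 2 ^ m * r1 + r0 := (Nat.div_add_mod _ _).symm
      have hr0lt : r0 < 2 ^ 2 ^ m := Nat.mod_lt _ (by positivity)
      have hr1lt : r1 < 2 ^ 2 ^ m := by
        rw [hr1]
        apply Nat.div_lt_of_lt_mul
        rw [← hpw2]
        exact hr2
      have hmul : (m + 1) * N = m * N + N := by ring
      have hp : 0 < 2 ^ m := by positivity
      by_cases c0 : r0 = 0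
      · have h1pos : 0 < r1 := by
          rcases Nat.eq_zero_or_pos r1 with h | h
          · rw [hdm, h, c0] at hr
            simp at hr
          · exact h
        have h2 : 2 ^ a * r = 2 ^ (a + 2 ^ m) * r1 := by
          rw [hdm, c0, pow_add]
          ring
        rw [h2]
        have := ih (a + 2 ^ m) r1 (by omega) (by omega) h1pos hr1lt
        omega
      · by_cases c1 : r1 = 0
        · have h2 : r = r0 := by rw [hdm, c1]; simp
          rw [h2]
          have := ih a r0 ha (by omega) (Nat.pos_of_ne_zero c0) hr0lt
          omega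
        · have h2 : 2 ^ a * r = 2 ^ (a + 2 ^ m) * r1 + 2 ^ a * r0 := by
            rw [hdm, pow_add]
            ring
          have h3 := ih (a + 2 ^ m) r1 (by omega) (by omega) (Nat.pos_of_ne_zero c1) hr1lt
          have h4 := ih a r0 ha (by omega) (Nat.pos_of_ne_zero c0) hr0lt
          have h5 := hadd (2 ^ (a + 2 ^ m) * r1) (2 ^ a * r0)
            (Nat.mul_pos (by positivity) (Nat.pos_of_ne_zero c1))
            (Nat.mul_pos (by positivity) (Nat.pos_of_ne_zero c0))
          rw [h2]
          have h6 := max_le h3 h4
          omega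
  intro r hr hr2
  have := hB n 1 r one_pos (by omega) hr hr2
  rw [pow_one] at this
  have e : (2 * n + 1) * N = (n + 1) * N + n * N := by ring
  omega

/-- The structure of the positive integers with addition, the function `x * 2 ^ y`, the order and
the constant `1` is not automatic. -/
theorem result : ¬ Automatic LN ℕ+ := by
  classical
  rintro ⟨A, _, D, e, -, -, hfun⟩
  -- the length of the word of a number
  have hlen : ∀ (f : LN.Functions 2), ∃ N : ℕ, ∀ x y : ℕ+,
      ((e.symm (Language.Structure.funMap f ![x, y]) : List A)).length ≤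
        max ((e.symm x : List A)).length ((e.symm y : List A)).length + N := by
    intro f
    obtain ⟨N, hN⟩ := length_le _ (hfun 2 f) (by
      rintro w ⟨x, hx, hx2⟩ w' ⟨x', hx', hx2'⟩ h0 h1
      have g0 : w 0 = (e.symm (x 0) : List A) := hx 0
      have g1 : w 1 = (e.symm (x 1) : List A) := hx 1
      have g0' : w' 0 = (e.symm (x' 0) : List A) := hx' 0
      have g1' : w' 1 = (e.symm (x' 1) : List A) := hx' 1
      have k0 : x 0 = x' 0 := by
        rw [g0, g0'] at h0
        exact e.symm.injective (Subtype.ext h0)
      have k1 : x 1 = x' 1 := by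
        rw [g1, g1'] at h1
        exact e.symm.injective (Subtype.ext h1)
      have k : x = x' := by
        funext i
        fin_cases i
        · exact k0
        · exact k1
      have g2 : w 2 = (e.symm (Language.Structure.funMap f x) : List A) := hx2
      have g2' : w' 2 = (e.symm (Language.Structure.funMap f x') : List A) := hx2'
      rw [g2, g2', k])
    refine ⟨N, fun x y => ?_⟩
    have := hN ![(e.symm x : List A), (e.symm y : List A),
      (e.symm (Language.Structure.funMap f ![x, y]) : List A)] ⟨![x, y], by
        intro i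
        fin_cases i <;> rfl, rfl⟩
    exact this
  obtain ⟨N₁, hN₁⟩ := hlen NFun.add
  obtain ⟨N₂, hN₂⟩ := hlen NFun.mulPow
  let l : ℕ → ℕ := fun x => ((e.symm x.toPNat' : List A)).length
  have hl : ∀ x : ℕ+, l x = ((e.symm x : List A)).length := by
    intro x
    show ((e.symm (x : ℕ).toPNat' : List A)).length = _
    rw [PNat.coe_toPNat']
  let N := max N₁ N₂
  have haddP : ∀ x y : ℕ+, l ((x + y : ℕ+) : ℕ) ≤ max (l x) (l y) + N := by
    intro x y
    rw [hl, hl, hl]
    exact (hN₁ x y).trans (Nat.add_le_add_left (le_max_left _ _) _)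
  have hpowP : ∀ y : ℕ+, l (((1 : ℕ+) * 2 ^ (y : ℕ) : ℕ+) : ℕ) ≤ max (l (1 : ℕ+)) (l y) + N := by
    intro y
    rw [hl, hl, hl]
    exact (hN₂ 1 y).trans (Nat.add_le_add_left (le_max_right _ _) _)
  have hadd : ∀ x y, 0 < x → 0 < y → l (x + y) ≤ max (l x) (l y) + N := by
    intro x y hx hy
    exact haddP ⟨x, hx⟩ ⟨y, hy⟩
  have hpow : ∀ y, 0 < y → l (2 ^ y) ≤ max (l 1) (l y) + N := by
    intro y hy
    have := hpowP ⟨y, hy⟩
    rw [one_mul, PNat.pow_coe] at this
    exact this
  -- choose `n` large
  let s := Fintype.card A
  obtain ⟨n, hn⟩ := exists_big (s * (2 * N)) (s * (l 1 + N))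
  have hg := growth l N (l 1) le_rfl hadd hpow n
  set K := l 1 + (2 * n + 1) * N with hK
  -- the injection
  let F : Fin (2 ^ 2 ^ n - 1) → (Fin K → Option A) := fun r i =>
    (e.symm (2 * ((r : ℕ) + 1)).toPNat' : List A)[(i : ℕ)]?
  have hF : Function.Injective F := by
    intro r r' hrr
    have hle : ∀ r : Fin (2 ^ 2 ^ n - 1),
        ((e.symm (2 * ((r : ℕ) + 1)).toPNat' : List A)).length ≤ K := fun r =>
      hg ((r : ℕ) + 1) (by omega) (by have := r.2; omega)
    have h3 : (e.symm (2 * ((r : ℕ) + 1)).toPNat' : List A) =
        (e.symm (2 * ((r' : ℕ) + 1)).toPNat' : List A) := by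
      apply List.ext_getElem?
      intro i
      by_cases hi : i < K
      · exact congrFun hrr ⟨i, hi⟩
      · rw [List.getElem?_eq_none (by have := hle r; omega),
          List.getElem?_eq_none (by have := hle r'; omega)]
    have h4 := e.symm.injective (Subtype.ext h3)
    have h5 : 2 * ((r : ℕ) + 1) = 2 * ((r' : ℕ) + 1) := by
      have := congrArg PNat.val h4
      rwa [Nat.toPNat'_coe, Nat.toPNat'_coe, if_pos (by omega), if_pos (by omega)] at this
    apply Fin.ext
    omega
  have hcard := Fintype.card_le_of_injective F hF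
  rw [Fintype.card_fin, Fintype.card_fun, Fintype.card_fin, Fintype.card_option] at hcard
  have h6 : (s + 1) ^ K ≤ 2 ^ (s * K) := by
    rw [pow_mul]
    exact Nat.pow_le_pow_left (Nat.lt_two_pow_self) K
  have h7 : s * K + 1 ≤ 2 ^ n := by
    have : s * K = s * (2 * N) * n + s * (l 1 + N) := by
      rw [hK]; ring
    rw [this]
    omega
  have h8 : 2 ^ (s * K + 1) ≤ 2 ^ 2 ^ n := Nat.pow_le_pow_right (by norm_num) h7
  have h9 : 0 < 2 ^ (s * K) := by positivity
  rw [pow_succ] at h8
  have h10 : 2 ^ 2 ^ n - 1 ≤ 2 ^ (s * K) := hcard.trans h6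
  have h11 : 2 ≤ 2 ^ 2 ^ n := by
    have : 1 ≤ 2 ^ n := Nat.one_le_two_pow
    calc 2 = 2 ^ 1 := rfl
      _ ≤ 2 ^ 2 ^ n := Nat.pow_le_pow_right (by norm_num) this
  -- `2 * 2 ^ (s K) ≤ 2 ^ 2 ^ n ≤ 2 ^ (s K) + 1`
  have h12 : 2 ^ (s * K) ≤ 1 := by omega
  have h13 : 2 ^ 2 ^ n ≤ 2 := by omega
  have h14 : 2 ≤ 2 ^ n := by
    have : 2 ≤ 2 ^ n := by omega
    exact this
  have h15 : (2 : ℕ) ^ 2 ≤ 2 ^ 2 ^ n := Nat.pow_le_pow_right (by norm_num) h14
  omega

end Pool.Agent.Results.MP_34afd1_lc.NotAutomatic
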